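import Pool.Agent.X111.AT.Main

/-!
# Montgomery's large values conjecture for almost all additive twists

Q1 asks for `∑_{t ∈ S} |D(t)|² ≤ C N^ε (N + |S|) N` for all `1`-separated `S ⊂ [0, T]`, `T ≤ N²`,
`D(t) = ∑_{n ≤ N} a_n n^{it}`, `|a_n| ≤ 1`. Here `a_n` is replaced by `a_n e(α n)`. For every `N`, `T` and
`(a_n)`, all `α ∈ [0, 1]` outside a set of measure `δ` and all these `S` at once:

(1) `∑_{t ∈ S} |D_α(t)|⁴ ≤ (32 / δ) (1 + log N)⁴ (N² T + N³)`;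

(2) the inequality of Q1 holds, with `6 δ^(-1/2) (1 + log N)²` in place of `C N^ε`, if `|S| ≤ N² / T`;

(3) if `|D_α(t)| ≥ V` on `S` and `V² ≥ max (N, T)`, then `|S| ≤ (64 / δ) (1 + log N)⁴ N² / V²`.
-/

set_option autoImplicit false

namespace Pool.Agent.Results.MP_71ac24_nt.AdditiveTwists

open Finset MeasureTheory

/-- `D_α(t) = ∑_{n = 1}^N a_n e(α n) n^{it}`, where `e(x) = exp(2 π i x)`, `n^{it} = exp(i t log n)` -/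
noncomputable def D (N : ℕ) (a : ℕ → ℂ) (α t : ℝ) : ℂ :=
  ∑ n ∈ Icc 1 N, a n * Complex.exp (((2 * Real.pi * α * n + t * Real.log n : ℝ) : ℂ) * Complex.I)

/-- **Theorem.** -/
theorem result (N : ℕ) (hN : 1 ≤ N) (T : ℝ) (hT : 1 ≤ T) (a : ℕ → ℂ) (ha : ∀ n, ‖a n‖ ≤ 1)
    (δ : ℝ) (hδ : 0 < δ) : ∃ E : Set ℝ, MeasurableSet E ∧ volume E ≤ ENNReal.ofReal δ ∧
      ∀ α ∈ Set.Icc (0 : ℝ) 1, α ∉ E → ∀ S : Finset ℝ, (∀ t ∈ S, 0 ≤ t ∧ t ≤ T) →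
        (∀ t ∈ S, ∀ u ∈ S, t ≠ u → 1 ≤ |t - u|) →
        ∑ t ∈ S, ‖D N a α t‖ ^ 4 ≤ 32 / δ * (1 + Real.log N) ^ 4 * ((N : ℝ) ^ 2 * T + (N : ℝ) ^ 3) ∧
        ((S.card : ℝ) ≤ (N : ℝ) ^ 2 / T →
          ∑ t ∈ S, ‖D N a α t‖ ^ 2 ≤ 6 / Real.sqrt δ * (1 + Real.log N) ^ 2 * ((N : ℝ) + S.card) * N) ∧
        ∀ V : ℝ, 0 < V → (N : ℝ) ≤ V ^ 2 → T ≤ V ^ 2 → (∀ t ∈ S, V ≤ ‖D N a α t‖) →
          (S.card : ℝ) ≤ 64 / δ * (1 + Real.log N) ^ 4 * ((N : ℝ) ^ 2 / V ^ 2) := by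
  obtain ⟨E, hE1, hE2, hE3⟩ := Pool.Agent.X111.AT.main4 N hN T hT a ha δ hδ
  have hN1 : (1 : ℝ) ≤ N := by exact_mod_cast hN
  have hlog : 0 ≤ Real.log N := Real.log_nonneg hN1
  refine ⟨E, hE1, hE2, fun α hα hαE S hS hsep => ?_⟩
  have h4 : ∑ t ∈ S, ‖D N a α t‖ ^ 4 ≤
      32 / δ * (1 + Real.log N) ^ 4 * ((N : ℝ) ^ 2 * T + (N : ℝ) ^ 3) := hE3 α hα hαE S hS hsep
  set L := 1 + Real.log N with hL
  have hL0 : 0 < L := by rw [hL]; linarith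
  have hs0 : (0 : ℝ) ≤ S.card := Nat.cast_nonneg _
  refine ⟨h4, fun hc => ?_, fun V hV hNV hTV hD => ?_⟩
  · rw [le_div_iff₀ (by linarith)] at hc
    have h1 : (∑ t ∈ S, ‖D N a α t‖ ^ 2) ^ 2 ≤ (S.card : ℝ) * ∑ t ∈ S, ‖D N a α t‖ ^ 4 := by
      have := sq_sum_le_card_mul_sum_sq (s := S) (f := fun t => ‖D N a α t‖ ^ 2)
      refine this.trans (le_of_eq ?_)
      congr 1
      refine sum_congr rfl fun t _ => ?_
      ring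
    have h2 : (S.card : ℝ) * ((N : ℝ) ^ 2 * T + (N : ℝ) ^ 3) ≤ ((N : ℝ) + S.card) ^ 2 * (N : ℝ) ^ 2 := by
      have e1 : (S.card : ℝ) * ((N : ℝ) ^ 2 * T) ≤ (N : ℝ) ^ 2 * (N : ℝ) ^ 2 := by
        calc (S.card : ℝ) * ((N : ℝ) ^ 2 * T) = (N : ℝ) ^ 2 * ((S.card : ℝ) * T) := by ring
          _ ≤ _ := mul_le_mul_of_nonneg_left hc (by positivity)
      have e2 : ((N : ℝ) + S.card) ^ 2 * (N : ℝ) ^ 2 =
          (N : ℝ) ^ 2 * (N : ℝ) ^ 2 + 2 * ((S.card : ℝ) * (N : ℝ) ^ 3) + (S.card : ℝ) ^ 2 * (N : ℝ) ^ 2 := by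
        ring
      have e3 : 0 ≤ (S.card : ℝ) * (N : ℝ) ^ 3 := by positivity
      have e4 : 0 ≤ (S.card : ℝ) ^ 2 * (N : ℝ) ^ 2 := by positivity
      rw [e2, mul_add]
      linarith
    apply le_of_sq_le_sq _ (by positivity)
    have hsq : Real.sqrt δ ^ 2 = δ := Real.sq_sqrt hδ.le
    calc (∑ t ∈ S, ‖D N a α t‖ ^ 2) ^ 2 ≤ (S.card : ℝ) * ∑ t ∈ S, ‖D N a α t‖ ^ 4 := h1
      _ ≤ (S.card : ℝ) * (32 / δ * L ^ 4 * ((N : ℝ) ^ 2 * T + (N : ℝ) ^ 3)) :=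
          mul_le_mul_of_nonneg_left h4 hs0
      _ = 32 / δ * L ^ 4 * ((S.card : ℝ) * ((N : ℝ) ^ 2 * T + (N : ℝ) ^ 3)) := by ring
      _ ≤ 32 / δ * L ^ 4 * (((N : ℝ) + S.card) ^ 2 * (N : ℝ) ^ 2) :=
          mul_le_mul_of_nonneg_left h2 (by positivity)
      _ ≤ 36 / δ * L ^ 4 * (((N : ℝ) + S.card) ^ 2 * (N : ℝ) ^ 2) := by
          apply mul_le_mul_of_nonneg_right _ (by positivity)
          apply mul_le_mul_of_nonneg_right _ (by positivity)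
          exact div_le_div_of_nonneg_right (by norm_num) hδ.le
      _ = (6 / Real.sqrt δ * L ^ 2 * ((N : ℝ) + S.card) * N) ^ 2 := by
          rw [mul_pow, mul_pow, mul_pow, div_pow, hsq]
          ring
  · have h1 : (S.card : ℝ) * V ^ 4 ≤ ∑ t ∈ S, ‖D N a α t‖ ^ 4 := by
      rw [← nsmul_eq_mul]
      exact card_nsmul_le_sum _ _ _ fun t ht => pow_le_pow_left₀ hV.le (hD t ht) 4
    have h2 : (N : ℝ) ^ 2 * T + (N : ℝ) ^ 3 ≤ 2 * ((N : ℝ) ^ 2 * V ^ 2) := by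
      have e1 : (N : ℝ) ^ 2 * T ≤ (N : ℝ) ^ 2 * V ^ 2 := mul_le_mul_of_nonneg_left hTV (by positivity)
      have e2 : (N : ℝ) ^ 3 ≤ (N : ℝ) ^ 2 * V ^ 2 := by
        calc (N : ℝ) ^ 3 = (N : ℝ) ^ 2 * N := by ring
          _ ≤ _ := mul_le_mul_of_nonneg_left hNV (by positivity)
      linarith
    have h3 : (S.card : ℝ) * V ^ 4 ≤ 64 / δ * L ^ 4 * ((N : ℝ) ^ 2 * V ^ 2) := by
      refine (h1.trans h4).trans ?_
      calc 32 / δ * L ^ 4 * ((N : ℝ) ^ 2 * T + (N : ℝ) ^ 3)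
          ≤ 32 / δ * L ^ 4 * (2 * ((N : ℝ) ^ 2 * V ^ 2)) := mul_le_mul_of_nonneg_left h2 (by positivity)
        _ = _ := by ring
    have h5 : (S.card : ℝ) ≤ 64 / δ * L ^ 4 * ((N : ℝ) ^ 2 * V ^ 2) / V ^ 4 := by
      rw [le_div_iff₀ (by positivity)]
      exact h3
    refine h5.trans (le_of_eq ?_)
    field_simp

end Pool.Agent.Results.MP_71ac24_nt.AdditiveTwists
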