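import Pool.Agent.X108.HB.PR

set_option autoImplicit false

/-!
# Montgomery's large values conjecture for Dirichlet polynomials over almost coprime integers

Let `T ≤ N²`, `|a_n| ≤ 1`, and let the support of `(a_n)` be `G`-almost coprime: every `m` of the
support has a common divisor larger than `G` with at most `G` members of the support. Examples:
the primes (`G = 1`), and the `n ≤ N` with a prime factor `p ≥ N / G`. Then, with `L = 1 + log N`:

(i) for all finite sets `W, X ⊂ [0,T]`, `X` nonempty, such that `X` and `W + X` are `1`-separated,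
`∑_{t ∈ W} |D(t)|² ≤ C G L³ (|W + X| / |X|)^{1/2} (N + |W + X|) N`;

(ii) if `|D(t)| ≥ V` on a `1`-separated set `W ⊂ [0,T]` of additive energy `E(W)`, then
`V² E(W) ≤ C G L³ |W|² (N + |W|) N`; hence if `|W|³ ≤ K E(W)` and `V² ≥ 2 C K G L³ N`, then
`|W| ≤ 2 C K G L³ N² / V²`.
-/

namespace Pool.Agent.Results.MP_71ac24_nt.AlmostCoprimeSupport

open Finset
open scoped Pointwise

/-- `D(t) = ∑_{n ≤ N} a_n n^{it}` -/
noncomputable def D (N : ℕ) (a : ℕ → ℂ) (t : ℝ) : ℂ :=
  ∑ n ∈ Finset.Icc 1 N, a n * Complex.exp (Complex.I * (t : ℂ) * (Real.log (n : ℝ) : ℂ))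

open Classical in
/-- every `m ≤ N` with `a_m ≠ 0` has a common divisor larger than `G` with at most `G` of the
`n ≤ N` with `a_n ≠ 0` -/
def AlmostCoprime (G N : ℕ) (a : ℕ → ℂ) : Prop :=
  ∀ m ∈ Finset.Icc 1 N, a m ≠ 0 →
    ((Finset.Icc 1 N).filter (fun n => a n ≠ 0 ∧ G < Nat.gcd m n)).card ≤ G

/-- distinct members have distance at least one -/
def Separated (S : Finset ℝ) : Prop := ∀ t ∈ S, ∀ u ∈ S, t ≠ u → 1 ≤ |t - u|

theorem primes_coprime (N : ℕ) (a : ℕ → ℂ) (h : ∀ n ∈ Icc 1 N, a n ≠ 0 → n.Prime) :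
    AlmostCoprime 1 N a := by
  classical
  intro m hm ham
  have hmp := h m hm ham
  have hsub : (Icc 1 N).filter (fun n => a n ≠ 0 ∧ 1 < Nat.gcd m n) ⊆ {m} := by
    intro n hn
    rw [mem_filter] at hn
    have hnp := h n hn.1 hn.2.1
    rw [mem_singleton]
    by_contra hne
    have := (Nat.coprime_primes hmp hnp).2 (Ne.symm hne)
    have h2 : Nat.gcd m n = 1 := this
    omega
  have := card_le_card hsub
  rw [card_singleton] at this
  convert this using 2

theorem large_factor (N G : ℕ) (a : ℕ → ℂ)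
    (h : ∀ n ∈ Icc 1 N, a n ≠ 0 → ∃ p : ℕ, p.Prime ∧ p ∣ n ∧ N ≤ G * p) :
    AlmostCoprime G N a := by
  classical
  intro m hm ham
  obtain ⟨p, hp, hpm, hpG⟩ := h m hm ham
  have hsub : (Icc 1 N).filter (fun n => a n ≠ 0 ∧ G < Nat.gcd m n) ⊆
      (Ioc 0 N).filter (fun n => p ∣ n) := by
    intro n hn
    rw [mem_filter, mem_Icc] at hn
    rw [mem_filter, mem_Ioc]
    refine ⟨⟨hn.1.1, hn.1.2⟩, ?_⟩
    by_contra hpn
    obtain ⟨m', rfl⟩ := hpm
    have hcop : Nat.Coprime (Nat.gcd (p * m') n) p := by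
      apply Nat.Coprime.symm
      rw [Nat.Prime.coprime_iff_not_dvd hp]
      intro hd
      exact hpn (hd.trans (Nat.gcd_dvd_right _ _))
    have hd : Nat.gcd (p * m') n ∣ m' :=
      hcop.dvd_of_dvd_mul_left (Nat.gcd_dvd_left _ _)
    rw [mem_Icc] at hm
    have hm'0 : 0 < m' := Nat.pos_of_ne_zero (by rintro rfl; simp at hm)
    have h1 := Nat.le_of_dvd hm'0 hd
    have h2 : p * m' ≤ p * G := by
      calc p * m' ≤ N := hm.2
        _ ≤ G * p := hpG
        _ = p * G := Nat.mul_comm _ _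
    have h3 := Nat.le_of_mul_le_mul_left h2 hp.pos
    have h4 := hn.2.2
    omega
  have h1 := card_le_card hsub
  rw [Nat.Ioc_filter_dvd_card_eq_div] at h1
  have h2 : N / p ≤ G := by
    apply Nat.div_le_of_le_mul
    rw [Nat.mul_comm]
    exact hpG
  refine le_trans (le_of_eq ?_) (h1.trans h2)
  congr 1

theorem result :
    (∀ (N : ℕ) (a : ℕ → ℂ), (∀ n ∈ Finset.Icc 1 N, a n ≠ 0 → n.Prime) → AlmostCoprime 1 N a) ∧
    (∀ (N G : ℕ) (a : ℕ → ℂ),
      (∀ n ∈ Finset.Icc 1 N, a n ≠ 0 → ∃ p : ℕ, p.Prime ∧ p ∣ n ∧ N ≤ G * p) →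
      AlmostCoprime G N a) ∧
    ∃ C : ℝ, 0 < C ∧ ∀ (N G : ℕ) (T : ℝ) (a : ℕ → ℂ), 1 ≤ N → 1 ≤ G → T ≤ (N : ℝ) ^ 2 →
      (∀ n, ‖a n‖ ≤ 1) → AlmostCoprime G N a →
      (∀ W X : Finset ℝ, X.Nonempty → (∀ t ∈ W, 0 ≤ t ∧ t ≤ T) → (∀ t ∈ X, 0 ≤ t ∧ t ≤ T) →
        Separated X → Separated (W + X) →
        ∑ t ∈ W, ‖D N a t‖ ^ 2 ≤ C * G * (1 + Real.log N) ^ 3 *
          Real.sqrt (((W + X).card : ℝ) / X.card) * ((N : ℝ) + ((W + X).card : ℝ)) * N) ∧
      (∀ (W : Finset ℝ) (V : ℝ), 0 < V → (∀ t ∈ W, 0 ≤ t ∧ t ≤ T) → Separated W →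
        (∀ t ∈ W, V ≤ ‖D N a t‖) →
        V ^ 2 * (W.addEnergy W : ℕ) ≤
          C * G * (1 + Real.log N) ^ 3 * (W.card : ℝ) ^ 2 * ((N : ℝ) + W.card) * N ∧
        ∀ K : ℝ, 0 ≤ K → (W.card : ℝ) ^ 3 ≤ K * (W.addEnergy W : ℕ) →
          2 * C * K * G * (1 + Real.log N) ^ 3 * N ≤ V ^ 2 →
          (W.card : ℝ) ≤ 2 * C * K * G * (1 + Real.log N) ^ 3 * (N : ℝ) ^ 2 / V ^ 2) := by
  classical
  refine ⟨primes_coprime, large_factor, 60, by norm_num, ?_⟩
  intro N G T a hN hG hT ha hcop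
  have hNr : (1 : ℝ) ≤ N := by exact_mod_cast hN
  have hN0 : (0 : ℝ) < N := by linarith
  have hGr : (1 : ℝ) ≤ G := by exact_mod_cast hG
  have hlog : 0 ≤ Real.log N := Real.log_nonneg hNr
  set L : ℝ := 1 + Real.log N with hL
  have hL1 : 1 ≤ L := by rw [hL]; linarith
  have hL3 : 1 ≤ L ^ 3 := one_le_pow₀ hL1
  set I : Finset ℕ := (Icc 1 N).filter (fun n => a n ≠ 0) with hI
  have hIN : I ⊆ Icc 1 N := filter_subset _ _
  have hI1 : ∀ n ∈ I, 1 ≤ n := fun n hn => (mem_Icc.1 (hIN hn)).1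
  have haI : ∀ n ∈ I, ‖a n‖ ≤ 1 := fun n _ => ha n
  have hIG : Pool.Agent.X108.HB.AlmostCoprime G I := by
    intro m hm
    rw [hI, mem_filter] at hm
    have h1 := hcop m hm.1 hm.2
    rw [hI, filter_filter]
    refine le_trans (le_of_eq ?_) h1
    congr 1
  have hD : ∀ t : ℝ, D N a t = Pool.Agent.X108.HB.DD I a t := by
    intro t
    unfold D Pool.Agent.X108.HB.DD
    have e : ∀ n : ℕ, a n * Complex.exp (Complex.I * (t : ℂ) * (Real.log (n : ℝ) : ℂ)) =
        a n * Pool.Agent.X108.HB.ee t (n : ℚ) := by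
      intro n
      unfold Pool.Agent.X108.HB.ee
      congr 2
      push_cast
      ring
    simp only [e]
    rw [hI, sum_filter]
    refine sum_congr rfl fun n _ => ?_
    split_ifs with h
    · rfl
    · rw [not_not.1 h, zero_mul]
  -- the double sum
  have hZ : ∀ (S : Finset ℝ), Separated S → 0 ≤ T → (∀ t ∈ S, 0 ≤ t ∧ t ≤ 2 * T) →
      Pool.Agent.X108.HB.ZZ I S ≤ 60 * G * L ^ 3 * N * ((S.card : ℝ) * ((N : ℝ) + S.card)) := by
    intro S hS hT0 hST
    have h1 := Pool.Agent.X108.HB.ZZ_coprime hN hIN hG hIG (T := 2 * T) (by linarith) S 0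
      ⟨hS, fun t ht => ⟨(hST t ht).1, by linarith [(hST t ht).2]⟩⟩
    have h2 := Pool.Agent.X108.HB.KL_le hN (T := 2 * T) (by linarith) (by linarith)
    rw [← hL] at h2
    have hS0 : (0 : ℝ) ≤ S.card := Nat.cast_nonneg _
    calc _ ≤ _ := h1
      _ ≤ G * (1 * N * (S.card : ℝ) ^ 2 + (60 * L ^ 3 * (N : ℝ) ^ 2) * S.card) := by
          rw [one_mul]; gcongr
      _ ≤ G * ((60 * L ^ 3) * N * (S.card : ℝ) ^ 2 + (60 * L ^ 3 * (N : ℝ) ^ 2) * S.card) := by
          gcongr; linarith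
      _ = _ := by ring
  constructor
  · intro W X hX hW hX2 hsX hsWX
    obtain ⟨x0, hx0⟩ := hX
    have hT0 : 0 ≤ T := (hX2 x0 hx0).1.trans (hX2 x0 hx0).2
    rcases W.eq_empty_or_nonempty with hWe | hWn
    · rw [hWe, sum_empty]
      positivity
    have hq : (0 : ℝ) < X.card := by exact_mod_cast card_pos.2 ⟨x0, hx0⟩
    have hqp : (X.card : ℝ) ≤ (W + X).card := by
      have := card_le_card_add_left (t := X) hWn
      exact_mod_cast this
    set p : ℝ := ((W + X).card : ℝ) with hp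
    set q : ℝ := (X.card : ℝ) with hq'
    have hp0 : 0 < p := by linarith
    have h1 := Pool.Agent.X108.HB.moment_sumset hI1 a haI W X
    rw [← hq'] at h1
    have h2 := hZ (W + X) hsWX hT0 (by
      intro t ht
      obtain ⟨w, hw, x, hx, rfl⟩ := mem_add.1 ht
      have := hW w hw
      have := hX2 x hx
      constructor <;> linarith)
    have h3 := hZ X hsX hT0 (by
      intro t ht
      have := hX2 t ht
      constructor <;> linarith)
    rw [← hp] at h2
    rw [← hq'] at h3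
    set c : ℝ := 60 * G * L ^ 3 * N with hc
    have hc0 : 0 ≤ c := by rw [hc]; positivity
    have h4 : Real.sqrt (Pool.Agent.X108.HB.ZZ I (W + X)) * Real.sqrt (Pool.Agent.X108.HB.ZZ I X) ≤
        c * (N + p) * Real.sqrt (p * q) := by
      have h5 : Real.sqrt (Pool.Agent.X108.HB.ZZ I (W + X)) ≤ Real.sqrt (c * (p * (N + p))) :=
        Real.sqrt_le_sqrt h2
      have h6 : Real.sqrt (Pool.Agent.X108.HB.ZZ I X) ≤ Real.sqrt (c * (q * (N + p))) := by
        apply Real.sqrt_le_sqrt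
        refine h3.trans ?_
        gcongr
      calc _ ≤ Real.sqrt (c * (p * (N + p))) * Real.sqrt (c * (q * (N + p))) := by gcongr
        _ = Real.sqrt ((c * (N + p)) ^ 2 * (p * q)) := by
            rw [← Real.sqrt_mul (by positivity)]
            congr 1
            ring
        _ = _ := by
            rw [Real.sqrt_mul (by positivity), Real.sqrt_sq (by positivity)]
    have h5 : q * Real.sqrt (p / q) = Real.sqrt (p * q) := by
      have : Real.sqrt (p * q) = Real.sqrt (q ^ 2 * (p / q)) := by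
        congr 1
        field_simp
      rw [this, Real.sqrt_mul (by positivity), Real.sqrt_sq hq.le]
    have h6 : q * ∑ t ∈ W, ‖D N a t‖ ^ 2 ≤ q * (c * (N + p) * Real.sqrt (p / q)) := by
      simp only [hD]
      refine h1.trans (h4.trans (le_of_eq ?_))
      rw [← h5]
      ring
    have h7 := le_of_mul_le_mul_left h6 hq
    refine h7.trans (le_of_eq ?_)
    rw [hc]
    ring
  · intro W V hV hW hsW hVW
    have key : V ^ 2 * (W.addEnergy W : ℕ) ≤
        60 * G * L ^ 3 * (W.card : ℝ) ^ 2 * ((N : ℝ) + W.card) * N := by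
      rcases W.eq_empty_or_nonempty with hWe | ⟨w, hw⟩
      · rw [hWe]
        simp
      have hT0 : 0 ≤ T := (hW w hw).1.trans (hW w hw).2
      have h1 := Pool.Agent.X108.HB.energy_large hI1 a haI W V hV.le (by
        intro t ht
        rw [← hD]
        exact hVW t ht)
      have h2 := hZ W hsW hT0 (by
        intro t ht
        have := hW t ht
        constructor <;> linarith)
      calc _ ≤ _ := h1
        _ ≤ W.card * (60 * G * L ^ 3 * N * ((W.card : ℝ) * ((N : ℝ) + W.card))) := by gcongr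
        _ = _ := by ring
    refine ⟨key, ?_⟩
    intro K hK00 hK hVK
    have hV2 : 0 < V ^ 2 := by positivity
    rcases W.eq_empty_or_nonempty with hWe | hWn
    · rw [hWe, card_empty, Nat.cast_zero]
      positivity
    have hs : (0 : ℝ) < W.card := by exact_mod_cast hWn.card_pos
    set s : ℝ := (W.card : ℝ) with hs'
    have hK0 : 0 < K := by
      by_contra h
      push Not at h
      have h1 : K * ((W.addEnergy W : ℕ) : ℝ) ≤ 0 := mul_nonpos_of_nonpos_of_nonneg h (Nat.cast_nonneg _)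
      have h2 : 0 < s ^ 3 := by positivity
      linarith
    have h1 : V ^ 2 * s ^ 3 ≤ K * (60 * G * L ^ 3 * s ^ 2 * ((N : ℝ) + s) * N) := by
      calc V ^ 2 * s ^ 3 ≤ V ^ 2 * (K * (W.addEnergy W : ℕ)) := by gcongr
        _ = K * (V ^ 2 * (W.addEnergy W : ℕ)) := by ring
        _ ≤ _ := by gcongr
    have h2 : V ^ 2 * s ≤ K * (60 * G * L ^ 3 * ((N : ℝ) + s) * N) := by
      have h3 : (V ^ 2 * s) * s ^ 2 ≤ (K * (60 * G * L ^ 3 * ((N : ℝ) + s) * N)) * s ^ 2 := by
        calc (V ^ 2 * s) * s ^ 2 = V ^ 2 * s ^ 3 := by ring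
          _ ≤ _ := h1
          _ = _ := by ring
      exact le_of_mul_le_mul_right h3 (by positivity)
    rw [le_div_iff₀ hV2]
    have h3 : 2 * 60 * K * G * L ^ 3 * N * s ≤ V ^ 2 * s := by gcongr
    nlinarith

end Pool.Agent.Results.MP_71ac24_nt.AlmostCoprimeSupport
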