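import Pool.Agent.X159.MB.L2

/-!
# Montgomery's conjecture (second moments, real well spaced points) and sets of integers

Q1 is equivalent to the estimate `|∑_{n ∈ S} ∑_{t ∈ W} n^{it}| ≤ C N^(1+ε) |W|^(1/2)` for all sets
`S` of integers in `[1, N]` and all sets `W` of at most `N` integers in `[0, N²]`, and to the
estimate `∑_{n ≤ N} |∑_{t ∈ W} n^{it}| ≤ C N^(1+ε) |W|^(1/2)` for all these `W`.
-/

set_option autoImplicit false

namespace Pool.Agent.Results.MP_71ac24_nt.IntegerPointsAndSets

open Pool.Agent.X159.MB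

theorem result :
    (MontgomeryL2 ↔ BilinearIntegers) ∧ (MontgomeryL2 ↔ MeanValueIntegers) := l2_main

end Pool.Agent.Results.MP_71ac24_nt.IntegerPointsAndSets
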