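import Pool.Agent.X149.DirichletGrid

set_option autoImplicit false

/-!
# The large sieve inequality for Dirichlet polynomials with randomly perturbed frequencies

Q1 asks for `∑_{t ∈ S} |D(t)|² ≤ C N^ε (N + |S|) N` for all 1-separated `S ⊂ [0, T]` and all
`D(t) = ∑_{n ≤ N} a_n n^{it}`, `|a_n| ≤ 1`. Here `n` is replaced by `n + η θ_n` with independent
random numbers `θ_n` of `[0, 1]`. With high probability the inequality holds, with powers of
`log N` in place of `N^ε`, for all 1-separated sets and for ALL coefficients, with `∑ |a_n|²` in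
place of `N`.
-/

namespace Pool.Agent.Results.MP_71ac24_nt.RandomFrequencySieve

open MeasureTheory Finset Pool.Agent.X149

/-- `D(t) = ∑_{n = 1}^N a_n (n + η θ_n)^{it}` (the coordinates of `θ` and `a` have numbers
`0, …, N - 1`, the coordinate with number `n - 1` belongs to `n`) -/
noncomputable def D (N : ℕ) (η : ℝ) (θ : Fin N → ℝ) (a : Fin N → ℂ) (t : ℝ) : ℂ :=
  ∑ n : Fin N, a n * ((((n : ℕ) : ℝ) + 1 + η * θ n : ℝ) : ℂ) ^ ((t : ℂ) * Complex.I)

theorem D_eq (N : ℕ) {η : ℝ} (hη : 0 < η) (θ : Fin N → ℝ) (hθ : θ ∈ Set.Icc 0 1) (a : Fin N → ℂ)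
    (t : ℝ) : D N η θ a t = ∑ n : Fin N, a n * DU.ph t (((n : ℕ) : ℝ) + 1 + η * θ n) := by
  unfold D
  refine sum_congr rfl (fun n _ => ?_)
  rw [DU.ph_cpow]
  have h1 : 0 ≤ θ n := hθ.1 n
  have h2 : (0 : ℝ) ≤ (n : ℕ) := Nat.cast_nonneg _
  have h3 : 0 ≤ η * θ n := by positivity
  linarith

theorem pair_eq (N : ℕ) {η : ℝ} (hη : 0 < η) (θ : Fin N → ℝ) (hθ : θ ∈ Set.Icc 0 1)
    (a : Fin N → ℂ) (t : ℝ) : ∑ k : Fin 1 × Fin N, a k.2 *
      DU.ph t (1 + (((k.1 : ℕ) + 1 * (k.2 : ℕ) : ℕ) : ℝ) + η * θ k.2) = D N η θ a t := by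
  rw [D_eq N hη θ hθ, Fintype.sum_prod_type, Fin.sum_univ_one]
  refine sum_congr rfl (fun n _ => ?_)
  congr 2
  simp
  ring

theorem card_log {N : ℕ} {T : ℝ} (hN : 2 ≤ N) (hT : 1 ≤ T) :
    Real.log (DU.grid (2 * N) T).card ≤ 3 * Real.log (N * T) := by
  have hN0 : (2 : ℝ) ≤ N := by exact_mod_cast hN
  have hNT : (2 : ℝ) ≤ N * T := by nlinarith
  have hc1 : (1 : ℝ) ≤ (DU.grid (2 * N) T).card := by
    exact_mod_cast card_pos.2 (DU.grid_nonempty (2 * N) T)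
  have hc2 : ((DU.grid (2 * N) T).card : ℝ) ≤ 2 ^ 2 * (N * T) := by
    have h1 : ((DU.grid (2 * N) T).card : ℝ) ≤ (⌊T * ((2 * N : ℕ) : ℝ)⌋₊ : ℝ) + 1 := by
      exact_mod_cast DU.grid_card_le (2 * N) T
    have h2 := Nat.floor_le (show 0 ≤ T * ((2 * N : ℕ) : ℝ) by positivity)
    have h3 : T * ((2 * N : ℕ) : ℝ) = 2 * (N * T) := by push_cast; ring
    linarith
  have hl2 := Real.log_le_log (by norm_num) hNT
  calc Real.log (DU.grid (2 * N) T).card ≤ Real.log (2 ^ 2 * (N * T)) :=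
        Real.log_le_log (by linarith) hc2
    _ = 2 * Real.log 2 + Real.log (N * T) := by
        rw [Real.log_mul (by norm_num) (by linarith), Real.log_pow]
        norm_num
    _ ≤ _ := by linarith

theorem loss_bound {N : ℕ} {T δ : ℝ} (hN : 2 ≤ N) (hT : 1 ≤ T) (hδ : 0 < δ) (hδ1 : δ ≤ 1) :
    DU.lossT N 1 ((DU.grid (2 * N) T).card : ℝ) δ ≤
      18500 * (Real.log N * Real.log (N * T) + Real.log (1 / δ)) := by
  unfold DU.lossT
  have hN0 : (2 : ℝ) ≤ N := by exact_mod_cast hN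
  have hNT : (2 : ℝ) ≤ N * T := by nlinarith
  have hl2 := Real.log_two_gt_d9
  have hlN : Real.log 2 ≤ Real.log N := Real.log_le_log (by norm_num) hN0
  have hlNT : Real.log 2 ≤ Real.log (N * T) := Real.log_le_log (by norm_num) hNT
  have hld : 0 ≤ Real.log (1 / δ) := Real.log_nonneg (by rw [le_div_iff₀ hδ]; linarith)
  have h1 : Real.log (16 * ((N : ℝ) + 1)) ≤ 6 * Real.log N := by
    calc Real.log (16 * ((N : ℝ) + 1)) ≤ Real.log (2 ^ 5 * N) :=
          Real.log_le_log (by positivity) (by linarith)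
      _ = 5 * Real.log 2 + Real.log N := by
          rw [Real.log_mul (by norm_num) (by linarith), Real.log_pow]
          norm_num
      _ ≤ _ := by linarith
  have h2 := card_log hN hT
  have hc1 : (1 : ℝ) ≤ (DU.grid (2 * N) T).card := by
    exact_mod_cast card_pos.2 (DU.grid_nonempty (2 * N) T)
  have h5 : 0 ≤ Real.log ((DU.grid (2 * N) T).card : ℝ) := Real.log_nonneg hc1
  have h7 : Real.log (16 * ((N : ℝ) + 1)) * Real.log ((DU.grid (2 * N) T).card : ℝ) ≤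
      6 * Real.log N * (3 * Real.log (N * T)) := by
    apply mul_le_mul h1 h2 h5 (by linarith)
  have h8 : (1 : ℝ) ≤ 3 * (Real.log N * Real.log (N * T)) := by nlinarith
  rw [Nat.cast_one, one_mul]
  nlinarith

theorem log_le_sqrt {w : ℝ} (hw : 1 ≤ w) : Real.log w ≤ Real.sqrt w := by
  have h0 : 0 < Real.sqrt (Real.sqrt w) := Real.sqrt_pos.2 (Real.sqrt_pos.2 (by linarith))
  have h1 := Real.log_le_sub_one_of_pos h0
  rw [Real.log_sqrt (Real.sqrt_nonneg _), Real.log_sqrt (by linarith)] at h1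
  have h2 := Real.mul_self_sqrt (Real.sqrt_nonneg w)
  nlinarith [sq_nonneg (Real.sqrt (Real.sqrt w) - 2)]

theorem x_log {x w : ℝ} (hx : 2 ≤ x) (hw : 1 ≤ w) :
    x * Real.log w ≤ 2 * (x * Real.log x) + w := by
  rcases le_total w (x ^ 2) with h | h
  · have h1 : Real.log w ≤ 2 * Real.log x := by
      calc Real.log w ≤ Real.log (x ^ 2) := Real.log_le_log (by linarith) h
        _ = 2 * Real.log x := by rw [Real.log_pow]; norm_num
    nlinarith
  · have h1 : x ≤ Real.sqrt w := Real.le_sqrt_of_sq_le h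
    have h2 := log_le_sqrt hw
    have h3 := Real.mul_self_sqrt (show 0 ≤ w by linarith)
    have h4 : 0 ≤ Real.log w := Real.log_nonneg hw
    have h5 : 0 ≤ x * Real.log x := mul_nonneg (by linarith) (Real.log_nonneg (by linarith))
    have h6 : x * Real.log w ≤ Real.sqrt w * Real.sqrt w :=
      mul_le_mul h1 h2 h4 (Real.sqrt_nonneg _)
    linarith

theorem Lam_bound {N : ℕ} {T δ η w : ℝ} (hN : 2 ≤ N) (hT : 1 ≤ T) (hδ : 0 < δ) (hδ1 : δ ≤ 1)
    (hη : 0 < η) (hη1 : η ≤ 1) (hw : 1 ≤ w) :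
    DU.Lam N 1 (Nat.clog 2 N) 1 (1 / 2) η w (DU.lossT N 1 ((DU.grid (2 * N) T).card : ℝ) δ) ≤
      500000 * Real.log N * (N / η * Real.log (N / η) +
        w * (Real.log N * Real.log (N * T) + Real.log (1 / δ))) := by
  have hloss := loss_bound hN hT hδ hδ1
  have hN0 : (2 : ℝ) ≤ N := by exact_mod_cast hN
  have hNT : (2 : ℝ) ≤ N * T := by nlinarith
  have hl2 := Real.log_two_gt_d9
  have hl2' := Real.log_two_lt_d9
  have hlN : Real.log 2 ≤ Real.log N := Real.log_le_log (by norm_num) hN0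
  have hlNT : Real.log 2 ≤ Real.log (N * T) := Real.log_le_log (by norm_num) hNT
  have hld : 0 ≤ Real.log (1 / δ) := Real.log_nonneg (by rw [le_div_iff₀ hδ]; linarith)
  obtain ⟨x, hx⟩ : ∃ x : ℝ, x = N / η := ⟨_, rfl⟩
  have hNx : (N : ℝ) ≤ x := by
    rw [hx, le_div_iff₀ hη]
    nlinarith
  have hlx : Real.log 2 ≤ Real.log x := Real.log_le_log (by norm_num) (by linarith)
  have hxη : η⁻¹ * N = x := by rw [hx]; ring
  have hxw := x_log (by linarith : 2 ≤ x) hw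
  have hlw : 0 ≤ Real.log w := Real.log_nonneg hw
  obtain ⟨L, hL⟩ : ∃ L : ℝ, L = Real.log N * Real.log (N * T) + Real.log (1 / δ) := ⟨_, rfl⟩
  rw [← hL] at hloss ⊢
  rw [← hx]
  have hL1 : 1 ≤ 3 * L := by rw [hL]; nlinarith
  have hJ : ((Nat.clog 2 N : ℕ) : ℝ) + 1 ≤ 5 * Real.log N := by
    have h1 : (2 : ℝ) ^ (Nat.clog 2 N - 1) < N := by
      exact_mod_cast Nat.pow_pred_clog_lt_self (by norm_num) (by omega : 1 < N)
    have h2 : 1 ≤ Nat.clog 2 N := Nat.clog_pos (by norm_num) (by omega)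
    have h3 : ((Nat.clog 2 N - 1 : ℕ) : ℝ) * Real.log 2 < Real.log N := by
      rw [← Real.log_pow]
      exact Real.log_lt_log (by positivity) h1
    rw [Nat.cast_sub h2, Nat.cast_one] at h3
    nlinarith
  have hJ4 : w * ((N : ℝ) * (1 : ℕ)) / 4 ^ (Nat.clog 2 N) ≤ w := by
    rw [div_le_iff₀ (by positivity), Nat.cast_one, mul_one]
    apply mul_le_mul_of_nonneg_left _ (by linarith)
    have h1 : (N : ℝ) ≤ 2 ^ (Nat.clog 2 N) := by exact_mod_cast Nat.le_pow_clog (by norm_num) N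
    have h2 : (2 : ℝ) ^ (Nat.clog 2 N) ≤ 4 ^ (Nat.clog 2 N) :=
      pow_le_pow_left₀ (by norm_num) (by norm_num) _
    linarith
  have hmain : 8 * (η⁻¹ * (N * (1 : ℕ) + 4 * (1 + N * (1 : ℕ)) * (2 + Real.log w) / (1 / 2))) ≤
      488 * (x * Real.log x) + 96 * w := by
    have h1 : (N : ℝ) * (1 : ℕ) + 4 * (1 + N * (1 : ℕ)) * (2 + Real.log w) / (1 / 2) ≤
        N * (25 + 12 * Real.log w) := by
      rw [Nat.cast_one, mul_one]
      have : 4 * (1 + (N : ℝ)) * (2 + Real.log w) / (1 / 2) = 8 * (1 + N) * (2 + Real.log w) := by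
        ring
      rw [this]
      nlinarith
    have h2 : η⁻¹ * ((N : ℝ) * (1 : ℕ) + 4 * (1 + N * (1 : ℕ)) * (2 + Real.log w) / (1 / 2)) ≤
        x * (25 + 12 * Real.log w) := by
      calc _ ≤ η⁻¹ * (N * (25 + 12 * Real.log w)) :=
            mul_le_mul_of_nonneg_left h1 (inv_nonneg.2 hη.le)
        _ = x * (25 + 12 * Real.log w) := by rw [← mul_assoc, hxη]
    have h3 : x * 25 ≤ 37 * (x * Real.log x) := by nlinarith
    nlinarith
  have hxl : 0 ≤ x * Real.log x := mul_nonneg (by linarith) (by linarith)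
  have hwL : w ≤ 3 * (w * L) := by nlinarith
  unfold DU.Lam
  have hb : 8 * (η⁻¹ * (N * (1 : ℕ) + 4 * (1 + N * (1 : ℕ)) * (2 + Real.log w) / (1 / 2))) +
      w * DU.lossT N 1 ((DU.grid (2 * N) T).card : ℝ) δ ≤
      20000 * (x * Real.log x + w * L) := by
    have h1 : w * DU.lossT N 1 ((DU.grid (2 * N) T).card : ℝ) δ ≤ w * (18500 * L) :=
      mul_le_mul_of_nonneg_left hloss (by linarith)
    nlinarith
  have hb0 : 0 ≤ 20000 * (x * Real.log x + w * L) := by nlinarith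
  calc w * (N * (1 : ℕ)) / 4 ^ (Nat.clog 2 N) + 4 * ((Nat.clog 2 N : ℕ) + 1) *
        (8 * (η⁻¹ * (N * (1 : ℕ) + 4 * (1 + N * (1 : ℕ)) * (2 + Real.log w) / (1 / 2))) +
        w * DU.lossT N 1 ((DU.grid (2 * N) T).card : ℝ) δ)
      ≤ w + 4 * (5 * Real.log N) * (20000 * (x * Real.log x + w * L)) := by
        refine add_le_add hJ4 ?_
        refine mul_le_mul (by linarith) hb ?_ (by linarith)
        have h1 : 0 ≤ DU.lossT N 1 ((DU.grid (2 * N) T).card : ℝ) δ := by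
          have := DU.lossT_pos (M := N) (H := 1) le_rfl
            (by exact_mod_cast card_pos.2 (DU.grid_nonempty (2 * N) T) :
              (1 : ℝ) ≤ (DU.grid (2 * N) T).card) hδ hδ1
          push_cast at this
          linarith
        have h2 : 0 ≤ η⁻¹ := inv_nonneg.2 hη.le
        positivity
    _ ≤ _ := by
        have h1 : w ≤ 5 * (Real.log N * (w * L)) := by
          have : 0 ≤ w * L := by nlinarith
          nlinarith
        have h2 : 0 ≤ Real.log N * (x * Real.log x) := mul_nonneg (by linarith) hxl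
        have h3 : 0 ≤ Real.log N * (w * L) := by
          have : 0 ≤ w * L := by nlinarith
          exact mul_nonneg (by linarith) this
        nlinarith

theorem part_one (N : ℕ) (T δ η : ℝ) (hN : 2 ≤ N) (hT : 1 ≤ T) (hδ : 0 < δ) (hδ1 : δ ≤ 1)
    (hη : 0 < η) (hη1 : η ≤ 1) :
    ∃ E : Set (Fin N → ℝ), MeasurableSet E ∧ volume (E ∩ Set.Icc 0 1) ≤ ENNReal.ofReal δ ∧
      ∀ θ ∈ Set.Icc (0 : Fin N → ℝ) 1, θ ∉ E → ∀ a : Fin N → ℂ, ∀ S : Finset ℝ,
        (∀ t ∈ S, 0 ≤ t ∧ t ≤ T) → (∀ t ∈ S, ∀ u ∈ S, t ≠ u → 1 ≤ |t - u|) →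
        ∑ t ∈ S, ‖D N η θ a t‖ ^ 2 ≤ 10 ^ 7 * Real.log N * (N / η * Real.log (N / η) +
          S.card * (Real.log N * Real.log (N * T) + Real.log (1 / δ))) * ∑ n, ‖a n‖ ^ 2 := by
  classical
  have hN0 : (2 : ℝ) ≤ N := by exact_mod_cast hN
  have hNT : (2 : ℝ) ≤ N * T := by nlinarith
  have hl2 := Real.log_two_gt_d9
  have hlN : Real.log 2 ≤ Real.log N := Real.log_le_log (by norm_num) hN0
  have hlNT : Real.log 2 ≤ Real.log (N * T) := Real.log_le_log (by norm_num) hNT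
  have hld : 0 ≤ Real.log (1 / δ) := Real.log_nonneg (by rw [le_div_iff₀ hδ]; linarith)
  obtain ⟨E, hE1, hE2, hE3⟩ := DU.sieve (DU.grid (2 * N) T) (DU.grid_nonempty _ _) N 1 le_rfl 1 η δ
    one_pos hη hη1 hδ hδ1
  refine ⟨E, hE1, hE2, ?_⟩
  intro θ hθ hθE a S hST hsep
  have hA0 : 0 ≤ ∑ n, ‖a n‖ ^ 2 := sum_nonneg (fun _ _ => by positivity)
  have hG : 4 ≤ 2 * N := by omega
  rcases S.eq_empty_or_nonempty with hS0 | hSn
  · rw [hS0]
    simp only [sum_empty, card_empty, Nat.cast_zero, zero_mul, add_zero]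
    have h1 : (2 : ℝ) ≤ N / η := by
      rw [le_div_iff₀ hη]
      nlinarith
    have h2 : 0 ≤ Real.log (N / η) := Real.log_nonneg (by linarith)
    have h3 : 0 ≤ Real.log N := by linarith
    have h4 : (0 : ℝ) ≤ N / η := by linarith
    positivity
  have hinj : Set.InjOn (DU.gp (2 * N)) S := by
    intro t ht u hu htu
    by_contra hne
    have h1 := DU.gp_sep hG (hST t ht).1 (hST u hu).1 (hsep t ht u hu hne)
    rw [htu, sub_self, abs_zero] at h1
    linarith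
  obtain ⟨W, hW⟩ : ∃ W : Finset ℝ, W = S.image (DU.gp (2 * N)) := ⟨_, rfl⟩
  have hWc : W.card = S.card := by rw [hW, card_image_of_injOn hinj]
  have hWT : W ⊆ DU.grid (2 * N) T := by
    intro t ht
    rw [hW] at ht
    obtain ⟨u, hu, rfl⟩ := mem_image.1 ht
    exact DU.gp_mem (hST u hu).2
  have hWsep : ∀ t ∈ W, ∀ u ∈ W, t ≠ u → (1 / 2 : ℝ) ≤ |t - u| := by
    intro t ht u hu htu
    rw [hW] at ht hu
    obtain ⟨t', ht', rfl⟩ := mem_image.1 ht
    obtain ⟨u', hu', rfl⟩ := mem_image.1 hu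
    exact DU.gp_sep hG (hST t' ht').1 (hST u' hu').1
      (hsep t' ht' u' hu' (fun h => htu (by rw [h])))
  have hsv := hE3 θ hθE (fun k => a k.2) (1 / 2) (by norm_num) W hWT hWsep (Nat.clog 2 N)
  simp only [pair_eq N hη θ hθ a] at hsv
  have hb2 : ∑ k : Fin 1 × Fin N, ‖a k.2‖ ^ 2 = ∑ n, ‖a n‖ ^ 2 := by
    rw [Fintype.sum_prod_type, Fin.sum_univ_one]
  rw [hb2] at hsv
  have hw1 : (1 : ℝ) ≤ W.card := by
    rw [hWc]
    exact_mod_cast card_pos.2 hSn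
  have hLam := Lam_bound hN hT hδ hδ1 hη hη1 hw1
  have hsumW : ∑ t ∈ W, ‖D N η θ a t‖ ^ 2 = ∑ t ∈ S, ‖D N η θ a (DU.gp (2 * N) t)‖ ^ 2 := by
    rw [hW, sum_image hinj]
  rw [hsumW] at hsv
  -- the error of the approximation
  have herr : ∀ t ∈ S, ‖D N η θ a t - D N η θ a (DU.gp (2 * N) t)‖ ^ 2 ≤ ∑ n, ‖a n‖ ^ 2 := by
    intro t ht
    have h1 := DU.gp_close (by omega : 0 < 2 * N) (hST t ht).1
    have h2 : ‖D N η θ a t - D N η θ a (DU.gp (2 * N) t)‖ ≤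
        ∑ n : Fin N, ‖a n‖ * (1 / Real.sqrt N) := by
      rw [D_eq N hη θ hθ, D_eq N hη θ hθ, ← sum_sub_distrib]
      refine (norm_sum_le _ _).trans (sum_le_sum (fun n _ => ?_))
      rw [← mul_sub, norm_mul]
      apply mul_le_mul_of_nonneg_left _ (norm_nonneg _)
      refine (DU.ph_lip _ _ _).trans ?_
      have hy1 : (1 : ℝ) ≤ ((n : ℕ) : ℝ) + 1 + η * θ n := by
        have h1 : 0 ≤ θ n := hθ.1 n
        have h2 : (0 : ℝ) ≤ (n : ℕ) := Nat.cast_nonneg _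
        have h3 : 0 ≤ η * θ n := by positivity
        linarith
      have hy2 : ((n : ℕ) : ℝ) + 1 + η * θ n ≤ 2 * N := by
        have h1 : θ n ≤ 1 := hθ.2 n
        have h1' : 0 ≤ θ n := hθ.1 n
        have h2 : (((n : ℕ) + 1 : ℕ) : ℝ) ≤ N := by exact_mod_cast n.2
        push_cast at h2
        have h3 : η * θ n ≤ 1 := by nlinarith
        linarith
      have h3 : |Real.log (((n : ℕ) : ℝ) + 1 + η * θ n)| ≤ Real.sqrt (2 * N) := by
        rw [abs_of_nonneg (Real.log_nonneg hy1)]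
        exact (Real.log_le_log (by linarith) hy2).trans (log_le_sqrt (by linarith))
      calc |t - DU.gp (2 * N) t| * |Real.log (((n : ℕ) : ℝ) + 1 + η * θ n)|
          ≤ 1 / ((2 * N : ℕ) : ℝ) * Real.sqrt (2 * N) :=
            mul_le_mul h1 h3 (abs_nonneg _) (by positivity)
        _ ≤ 1 / Real.sqrt N := by
            push_cast
            have h4 : Real.sqrt (2 * N) * Real.sqrt N ≤ 2 * N := by
              rw [← Real.sqrt_mul (by positivity)]
              apply Real.sqrt_le_iff.2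
              constructor
              · positivity
              · nlinarith
            have h5 : 0 < Real.sqrt N := Real.sqrt_pos.2 (by linarith)
            rw [div_mul_eq_mul_div, one_mul, div_le_div_iff₀ (by positivity) h5]
            linarith
    calc ‖D N η θ a t - D N η θ a (DU.gp (2 * N) t)‖ ^ 2
        ≤ (∑ n : Fin N, ‖a n‖ * (1 / Real.sqrt N)) ^ 2 :=
          pow_le_pow_left₀ (norm_nonneg _) h2 2
      _ ≤ (∑ n, ‖a n‖ ^ 2) * ∑ _n : Fin N, (1 / Real.sqrt N) ^ 2 := sum_mul_sq_le_sq_mul_sq _ _ _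
      _ = ∑ n, ‖a n‖ ^ 2 := by
          rw [sum_const, card_univ, Fintype.card_fin, nsmul_eq_mul, div_pow, one_pow,
            Real.sq_sqrt (by positivity), mul_one_div, div_self (by linarith), mul_one]
  have hfin : ∑ t ∈ S, ‖D N η θ a t‖ ^ 2 ≤ 2 * ∑ t ∈ S, ‖D N η θ a (DU.gp (2 * N) t)‖ ^ 2 +
      2 * (S.card * ∑ n, ‖a n‖ ^ 2) := by
    have h1 : ∀ t ∈ S, ‖D N η θ a t‖ ^ 2 ≤ 2 * ‖D N η θ a (DU.gp (2 * N) t)‖ ^ 2 +
        2 * ∑ n, ‖a n‖ ^ 2 := by
      intro t ht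
      have h2 := herr t ht
      have h3 : ‖D N η θ a t‖ ≤ ‖D N η θ a (DU.gp (2 * N) t)‖ +
          ‖D N η θ a t - D N η θ a (DU.gp (2 * N) t)‖ := by
        have := norm_add_le (D N η θ a (DU.gp (2 * N) t))
          (D N η θ a t - D N η θ a (DU.gp (2 * N) t))
        rwa [add_sub_cancel] at this
      have h4 := pow_le_pow_left₀ (norm_nonneg _) h3 2
      nlinarith [sq_nonneg (‖D N η θ a (DU.gp (2 * N) t)‖ -
        ‖D N η θ a t - D N η θ a (DU.gp (2 * N) t)‖)]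
    refine (sum_le_sum h1).trans (le_of_eq ?_)
    rw [sum_add_distrib, ← mul_sum, sum_const, nsmul_eq_mul]
    ring
  refine hfin.trans ?_
  obtain ⟨X, hX⟩ : ∃ X : ℝ, X = ∑ n, ‖a n‖ ^ 2 := ⟨_, rfl⟩
  rw [← hX] at hsv hA0 ⊢
  obtain ⟨L, hL⟩ : ∃ L : ℝ, L = Real.log N * Real.log (N * T) + Real.log (1 / δ) := ⟨_, rfl⟩
  rw [← hL] at hLam ⊢
  have hL1 : 1 ≤ 3 * L := by rw [hL]; nlinarith
  rw [hWc] at hLam hsv hw1
  obtain ⟨w, hw⟩ : ∃ w : ℝ, w = S.card := ⟨_, rfl⟩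
  rw [← hw] at hLam hsv hw1 ⊢
  have hx0 : 0 ≤ N / η * Real.log (N / η) := by
    have h1 : (1 : ℝ) ≤ N / η := by
      rw [le_div_iff₀ hη]
      nlinarith
    exact mul_nonneg (by linarith) (Real.log_nonneg h1)
  obtain ⟨x, hx⟩ : ∃ x : ℝ, x = N / η * Real.log (N / η) := ⟨_, rfl⟩
  rw [← hx] at hLam hx0 ⊢
  have hwL : 0 ≤ w * L := by nlinarith
  have h1 : w ≤ 5 * (Real.log N * (w * L)) := by nlinarith
  have h2 : 0 ≤ Real.log N * x := mul_nonneg (by linarith) hx0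
  have h3 : 0 ≤ Real.log N * (w * L) := mul_nonneg (by linarith) hwL
  have h4 : 2 * (4 * (500000 * Real.log N * (x + w * L)) * X) + 2 * (w * X) ≤
      10 ^ 7 * Real.log N * (x + w * L) * X := by
    have h5 : 2 * (4 * (500000 * Real.log N * (x + w * L))) + 2 * w ≤
        10 ^ 7 * Real.log N * (x + w * L) := by nlinarith
    nlinarith
  have h6 := mul_le_mul_of_nonneg_right (mul_le_mul_of_nonneg_left hLam
    (by norm_num : (0 : ℝ) ≤ 4)) hA0
  linarith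

theorem part_two (A B : ℝ) (hA : 0 ≤ A) (hB : 0 ≤ B) : ∃ C : ℝ, 0 < C ∧
    ∀ (N : ℕ) (T η : ℝ), 2 ≤ N → 1 ≤ T → T ≤ (N : ℝ) ^ A → 0 < η → η ≤ 1 →
      ∃ E : Set (Fin N → ℝ), MeasurableSet E ∧
        volume (E ∩ Set.Icc 0 1) ≤ ENNReal.ofReal ((N : ℝ) ^ (-B)) ∧
        ∀ θ ∈ Set.Icc (0 : Fin N → ℝ) 1, θ ∉ E → ∀ a : Fin N → ℂ, ∀ S : Finset ℝ,
          (∀ t ∈ S, 0 ≤ t ∧ t ≤ T) → (∀ t ∈ S, ∀ u ∈ S, t ≠ u → 1 ≤ |t - u|) →
          ∑ t ∈ S, ‖D N η θ a t‖ ^ 2 ≤ C * Real.log (N / η) ^ 3 * (N / η + S.card) *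
            ∑ n, ‖a n‖ ^ 2 := by
  refine ⟨10 ^ 7 * (3 + A + 2 * B), by positivity, ?_⟩
  intro N T η hN hT hTA hη hη1
  have hN0 : (2 : ℝ) ≤ N := by exact_mod_cast hN
  have hNp : (0 : ℝ) < N := by linarith
  have hl2 := Real.log_two_gt_d9
  have hlN : Real.log 2 ≤ Real.log N := Real.log_le_log (by norm_num) hN0
  obtain ⟨E, hE1, hE2, hE3⟩ := part_one N T ((N : ℝ) ^ (-B)) η hN hT (by positivity)
    (Real.rpow_le_one_of_one_le_of_nonpos (by linarith) (by linarith)) hη hη1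
  refine ⟨E, hE1, hE2, fun θ hθ hθE a S hST hsep => ?_⟩
  refine (hE3 θ hθ hθE a S hST hsep).trans ?_
  apply mul_le_mul_of_nonneg_right _ (sum_nonneg (fun _ _ => by positivity))
  have hld : Real.log (1 / (N : ℝ) ^ (-B)) = B * Real.log N := by
    rw [one_div, ← Real.rpow_neg hNp.le, neg_neg, Real.log_rpow hNp]
  rw [hld]
  have hlT : Real.log (N * T) ≤ (1 + A) * Real.log N := by
    rw [Real.log_mul (by linarith) (by linarith)]
    have h1 : Real.log T ≤ A * Real.log N := by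
      rw [← Real.log_rpow hNp]
      exact Real.log_le_log (by linarith) hTA
    linarith
  obtain ⟨x, hx⟩ : ∃ x : ℝ, x = N / η := ⟨_, rfl⟩
  have hNx : (N : ℝ) ≤ x := by
    rw [hx, le_div_iff₀ hη]
    nlinarith
  rw [← hx]
  obtain ⟨l, hl⟩ : ∃ l : ℝ, l = Real.log N := ⟨_, rfl⟩
  obtain ⟨m, hm⟩ : ∃ m : ℝ, m = Real.log x := ⟨_, rfl⟩
  have hlm : l ≤ m := by
    rw [hl, hm]
    exact Real.log_le_log hNp hNx
  rw [← hl] at hlN hlT
  rw [← hl, ← hm]
  have hl0 : (0.69 : ℝ) ≤ l := by linarith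
  have hw : (0 : ℝ) ≤ S.card := Nat.cast_nonneg _
  obtain ⟨w, hwd⟩ : ∃ w : ℝ, w = S.card := ⟨_, rfl⟩
  rw [← hwd] at hw ⊢
  have h1 : l * Real.log (N * T) + B * l ≤ (1 + A + 2 * B) * m ^ 2 := by
    have h2 : l * Real.log (N * T) ≤ l * ((1 + A) * l) :=
      mul_le_mul_of_nonneg_left hlT (by linarith)
    have h3 : B * l ≤ 2 * B * l ^ 2 := by
      have : 0 ≤ B * l := mul_nonneg hB (by linarith)
      nlinarith
    have h4 : l ^ 2 ≤ m ^ 2 := pow_le_pow_left₀ (by linarith) hlm 2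
    have h5 : (1 + A + 2 * B) * l ^ 2 ≤ (1 + A + 2 * B) * m ^ 2 :=
      mul_le_mul_of_nonneg_left h4 (by linarith)
    nlinarith
  have h2 : x * m ≤ x * (2 * m ^ 2) := by
    apply mul_le_mul_of_nonneg_left _ (by linarith)
    nlinarith
  have h3 : x * m + w * (l * Real.log (N * T) + B * l) ≤ (3 + A + 2 * B) * m ^ 2 * (x + w) := by
    have h4 := mul_le_mul_of_nonneg_left h1 hw
    have h5 : 0 ≤ m ^ 2 * w := by positivity
    have h6 : 0 ≤ (1 + A + 2 * B) * m ^ 2 * x := by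
      have : 0 ≤ x := by linarith
      positivity
    nlinarith
  have h0 : 0 ≤ (3 + A + 2 * B) * m ^ 2 * (x + w) := by
    have : 0 ≤ x := by linarith
    positivity
  calc 10 ^ 7 * l * (x * m + w * (l * Real.log (N * T) + B * l))
      ≤ 10 ^ 7 * m * ((3 + A + 2 * B) * m ^ 2 * (x + w)) := by
        have h7 : 0 ≤ x * m + w * (l * Real.log (N * T) + B * l) := by
          have h8 : 0 ≤ Real.log (N * T) := Real.log_nonneg (by nlinarith)
          have h9 : 0 ≤ x := by linarith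
          have h10 : 0 ≤ m := by linarith
          have h11 : 0 ≤ l := by linarith
          positivity
        exact mul_le_mul (by linarith) h3 h7 (by linarith)
    _ = _ := by ring

/-- **The large sieve inequality for randomly perturbed frequencies.** Let `N ≥ 2`, `T ≥ 1`,
`0 < η ≤ 1`. (1) For all `θ ∈ [0, 1] ^ N` outside a set of measure at most `δ`, for ALL complex
coefficients `a_n` and all finite 1-separated sets `S ⊂ [0, T]`, the sum of `|D(t)|²` over `S` is at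
most `10 ^ 7 log N ((N / η) log (N / η) + |S| (log N log (N T) + log (1 / δ))) ∑ |a_n|²`.
(2) For `T ≤ N ^ A`, outside a set of measure at most `N ^ (-B)`, it is at most
`C (log (N / η)) ^ 3 (N / η + |S|) ∑ |a_n|²`. -/
theorem result :
    (∀ (N : ℕ) (T δ η : ℝ), 2 ≤ N → 1 ≤ T → 0 < δ → δ ≤ 1 → 0 < η → η ≤ 1 →
      ∃ E : Set (Fin N → ℝ), MeasurableSet E ∧ volume (E ∩ Set.Icc 0 1) ≤ ENNReal.ofReal δ ∧
        ∀ θ ∈ Set.Icc (0 : Fin N → ℝ) 1, θ ∉ E → ∀ a : Fin N → ℂ, ∀ S : Finset ℝ,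
          (∀ t ∈ S, 0 ≤ t ∧ t ≤ T) → (∀ t ∈ S, ∀ u ∈ S, t ≠ u → 1 ≤ |t - u|) →
          ∑ t ∈ S, ‖D N η θ a t‖ ^ 2 ≤ 10 ^ 7 * Real.log N * (N / η * Real.log (N / η) +
            S.card * (Real.log N * Real.log (N * T) + Real.log (1 / δ))) * ∑ n, ‖a n‖ ^ 2) ∧
    (∀ A B : ℝ, 0 ≤ A → 0 ≤ B → ∃ C : ℝ, 0 < C ∧
      ∀ (N : ℕ) (T η : ℝ), 2 ≤ N → 1 ≤ T → T ≤ (N : ℝ) ^ A → 0 < η → η ≤ 1 →
        ∃ E : Set (Fin N → ℝ), MeasurableSet E ∧
          volume (E ∩ Set.Icc 0 1) ≤ ENNReal.ofReal ((N : ℝ) ^ (-B)) ∧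
          ∀ θ ∈ Set.Icc (0 : Fin N → ℝ) 1, θ ∉ E → ∀ a : Fin N → ℂ, ∀ S : Finset ℝ,
            (∀ t ∈ S, 0 ≤ t ∧ t ≤ T) → (∀ t ∈ S, ∀ u ∈ S, t ≠ u → 1 ≤ |t - u|) →
            ∑ t ∈ S, ‖D N η θ a t‖ ^ 2 ≤ C * Real.log (N / η) ^ 3 * (N / η + S.card) *
              ∑ n, ‖a n‖ ^ 2) :=
  ⟨part_one, part_two⟩

end Pool.Agent.Results.MP_71ac24_nt.RandomFrequencySieve
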